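import Pool.Agent.NA.Stmts

/-! TRN: the theorem for the sets `N0` -/

set_option autoImplicit false

open Finset Filter Topology MeasureTheory

noncomputable section

namespace Pool.Agent.NA.H15

open Pool.Agent.BC

section

variable {X : Type} [NormedAddCommGroup X] [NormedSpace ℝ X]

/-- a state of the run -/
structure St (NN : Set X) where
  z : ℕ → X
  K : ℕ
  L : ℕ
  V : ℕ → X
  u : ℕ → X
  bt : ℕ → ℕ
  hu : ∀ i < L, u i ∈ NN
  hL : 1 ≤ L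

/-- one generation -/
def Rst {NN : Set X} (δ r : ℝ) (n : ℕ) (s s' : St NN) (k : ℕ) : Prop :=
  1 ≤ k ∧ s'.L = s.L * 2 ^ k ∧ (∀ i < s.K, s'.z i = s.z i) ∧ s.K < s'.K ∧
    Lnk (6 / r) s'.z s.K s'.K (1 + 1 / 2 ^ (n + 4)) ∧
    ∀ i < s.L, ∑ m ∈ range (2 ^ k), s'.V (i * 2 ^ k + m) = (2 : ℝ) ^ k • s.V i ∧
      ∀ m < 2 ^ k, s'.V (i * 2 ^ k + m) - s.V i ∈ sp s'.z s'.K ∧
        Kin δ (δ / 2 ^ (s.bt i + 4)) (δ / 2 ^ (n + 7)) (s.V i) (s.u i) (s.bt i)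
          (s'.V (i * 2 ^ k + m)) (s'.u (i * 2 ^ k + m)) (s'.bt (i * 2 ^ k + m))

theorem step (gen : GenStmt) (r : ℝ) (hr : 0 < r) (hr1 : r ≤ 1) (hR : Rsv X r) (NN : Set X)
    (δ : ℝ) (hN : N0 NN δ) (n : ℕ) (s : St NN) : ∃ (s' : St NN) (k : ℕ), Rst δ r n s s' k := by
  have hδ : 0 < δ := hN.1
  obtain ⟨z', K', k, V', u', bt', h1, h2, h3, h4, h5⟩ := gen X r hr hr1 hR NN δ hN
    (fun b => δ / 2 ^ (b + 4)) (δ / 2 ^ (n + 7)) (1 / 2 ^ (n + 4)) s.z s.K s.L s.V s.u s.bt s.hu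
    s.hL (fun b => ⟨by positivity, by
      apply div_lt_self hδ
      exact one_lt_pow₀ (by norm_num) (by omega)⟩) (by positivity) (by positivity) (by
      rw [div_le_div_iff₀ (by positivity) (by norm_num), pow_add]
      have : (1 : ℝ) ≤ 2 ^ n := one_le_pow₀ (by norm_num)
      linarith)
  refine ⟨⟨z', K', s.L * 2 ^ k, V', u', bt', ?_, ?_⟩, k, h4, rfl, h1, h2, h3, ?_⟩
  · intro j hj
    have hp : 0 < 2 ^ k := by positivity
    have h6 : j / 2 ^ k < s.L := Nat.div_lt_of_lt_mul (by rwa [mul_comm] at hj)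
    have h7 := ((h5 (j / 2 ^ k) h6).2 (j % 2 ^ k) (Nat.mod_lt _ hp)).1
    rwa [Nat.div_add_mod'] at h7
  · exact Nat.one_le_iff_ne_zero.2 (Nat.mul_ne_zero (by have := s.hL; omega) (by positivity))
  · intro i hi
    exact ⟨(h5 i hi).1, fun m hm => ((h5 i hi).2 m hm).2⟩

theorem prod_le (n : ℕ) : ∏ i ∈ range n, (1 + 1 / 2 ^ (i + 4) : ℝ) ≤ 2 - 1 / 2 ^ n := by
  induction n with
  | zero => norm_num
  | succ n ih =>
    rw [prod_range_succ]
    have h1 : (0 : ℝ) < 1 / 2 ^ n := by positivity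
    have h2 : (1 : ℝ) / 2 ^ (n + 4) = 1 / 2 ^ n / 16 := by
      rw [pow_add]
      field_simp
      norm_num
    have h3 : (1 : ℝ) / 2 ^ (n + 1) = 1 / 2 ^ n / 2 := by
      rw [pow_add]
      field_simp
    rw [h2, h3]
    have h4 : (∏ i ∈ range n, (1 + 1 / 2 ^ (i + 4) : ℝ)) * (1 + 1 / 2 ^ n / 16) ≤
        (2 - 1 / 2 ^ n) * (1 + 1 / 2 ^ n / 16) := by gcongr
    nlinarith

theorem branch {NN : Set X} (δ r : ℝ) (σ : ℕ → St NN) (kk : ℕ → ℕ)
    (hσ : ∀ n, Rst δ r n (σ n) (σ (n + 1)) (kk n)) (t : ℝ) (ht0 : 0 ≤ t) (ht1 : t < 1) (k : ℕ) :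
    ⌊t * (σ k).L⌋₊ < (σ k).L ∧
    ∃ m < 2 ^ kk k, ⌊t * (σ (k + 1)).L⌋₊ = ⌊t * (σ k).L⌋₊ * 2 ^ kk k + m := by
  have h1 : ∀ k, ⌊t * (σ k).L⌋₊ < (σ k).L := by
    intro k
    have hL : (0 : ℝ) < (σ k).L := by
      have := (σ k).hL
      exact_mod_cast this
    rw [Nat.floor_lt (by positivity)]
    nlinarith
  refine ⟨h1 k, ⌊t * (σ (k + 1)).L⌋₊ % 2 ^ kk k, Nat.mod_lt _ (by positivity), ?_⟩
  have h2 : ⌊t * (σ k).L⌋₊ = ⌊t * (σ (k + 1)).L⌋₊ / 2 ^ kk k := by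
    rw [← Nat.floor_div_natCast, (hσ k).2.1]
    congr 1
    push_cast
    have : (0 : ℝ) < 2 ^ kk k := by positivity
    field_simp
  rw [h2, Nat.div_add_mod']

theorem brch (brn : BrnStmt) {NN : Set X} (δ r : ℝ) (hδ : 0 < δ) (σ : ℕ → St NN) (kk : ℕ → ℕ)
    (hσ : ∀ n, Rst δ r n (σ n) (σ (n + 1)) (kk n)) (h0V : (σ 0).V = (σ 0).u)
    (h0b : ∀ i, (σ 0).bt i = 0) (t : ℝ) (ht0 : 0 ≤ t) (ht1 : t < 1) :
    (¬ ∃ v, Tendsto (fun k => (σ k).V ⌊t * (σ k).L⌋₊) atTop (𝓝 v)) ∧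
    ∀ k, ‖(σ k).V ⌊t * (σ k).L⌋₊ - (σ k).u ⌊t * (σ k).L⌋₊‖ ≤ δ := by
  have h := brn X δ (fun k => (σ k).V ⌊t * (σ k).L⌋₊) (fun k => (σ k).u ⌊t * (σ k).L⌋₊)
    (fun k => (σ k).bt ⌊t * (σ k).L⌋₊) hδ (h0b _) (by
      intro k
      obtain ⟨h1, m, hm, h2⟩ := branch δ r σ kk hσ t ht0 ht1 k
      have h3 := (((hσ k).2.2.2.2.2 _ h1).2 m hm).2
      rw [← h2] at h3
      exact h3)
  refine ⟨h.1, fun k => ?_⟩
  have h4 := h.2 k
  simp only [h0V, sub_self, norm_zero, zero_add] at h4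
  exact h4

theorem run [CompleteSpace X] (lni : LniStmt) (fna : FnaStmt) (brn : BrnStmt) (lnc : LncStmt)
    (r : ℝ) (hr : 0 < r) (hr1 : r ≤ 1) (NN : Set X) (δ : ℝ) (hN : N0 NN δ) (σ : ℕ → St NN)
    (kk : ℕ → ℕ) (hσ : ∀ n, Rst δ r n (σ n) (σ (n + 1)) (kk n)) (h0K : (σ 0).K = 0)
    (h0L : (σ 0).L = 1) (h0V : (σ 0).V = (σ 0).u) (h0b : ∀ i, (σ 0).bt i = 0) : Yes X := by
  have hδ : 0 < δ := hN.1
  have hC : (1 : ℝ) ≤ 6 / r := by
    rw [le_div_iff₀ hr]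
    linarith
  have hmono : StrictMono (fun n => (σ n).K) := strictMono_nat_of_lt_succ fun n =>
    (hσ n).2.2.2.1
  have hKn : ∀ n, n ≤ (σ n).K := fun n => hmono.le_apply
  have hzc : ∀ n m, n ≤ m → ∀ i < (σ n).K, (σ m).z i = (σ n).z i := by
    intro n m hnm
    induction m, hnm using Nat.le_induction with
    | base => intro i _; rfl
    | succ m hm ih =>
      intro i hi
      rw [(hσ m).2.2.1 i (lt_of_lt_of_le hi (hmono.monotone hm)), ih i hi]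
  obtain ⟨z, hz⟩ : ∃ z : ℕ → X, ∀ n, ∀ i < (σ n).K, z i = (σ n).z i := by
    refine ⟨fun i => (σ (i + 1)).z i, fun n i hi => ?_⟩
    rcases le_total n (i + 1) with h | h
    · exact hzc n (i + 1) h i hi
    · exact (hzc (i + 1) n h i (lt_of_lt_of_le (Nat.lt_succ_self i) (hKn (i + 1)))).symm
  obtain ⟨hz0, hS⟩ := lni X (6 / r) z (fun n => (σ n).K) (fun n => 1 + 1 / 2 ^ (n + 4)) hC h0K
    hmono (fun n => (prod_le n).trans (by
      have : (0 : ℝ) < 1 / 2 ^ n := by positivity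
      linarith)) (fun i => (lnc X (6 / r) hC).1 _ _ _ _ _ (hz (i + 1)) (hσ i).2.2.2.2.1)
  have hsp : ∀ n, sp (σ n).z (σ n).K ≤ Submodule.span ℝ (Set.range z) := by
    intro n
    unfold sp
    refine Submodule.span_mono ?_
    rintro _ ⟨i, hi, rfl⟩
    exact ⟨i, hz n i hi⟩
  refine fna X z (2 * (6 / r)) (1 + δ) (fun k => 2 ^ kk k) (fun k => (σ k).L)
    (fun k i => (σ k).V i) hz0 hS h0L (fun k => (hσ k).2.1) (fun k => ?_) (fun k i hi => ?_)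
    (fun k i hi => ?_) (fun t ht => ?_)
  · calc 2 = 2 ^ 1 := rfl
      _ ≤ 2 ^ kk k := Nat.pow_le_pow_right (by norm_num) (hσ k).1
  · constructor
    · have hL : (0 : ℝ) < (σ k).L := by
        have := (σ k).hL
        exact_mod_cast this
      have h1 := (brch brn δ r hδ σ kk hσ h0V h0b ((i : ℝ) / (σ k).L) (by positivity) (by
        rw [div_lt_one hL]
        exact_mod_cast hi)).2 k
      rw [div_mul_cancel₀ _ hL.ne', Nat.floor_natCast] at h1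
      have h2 := hN.2.2.2.1 _ ((σ k).hu i hi)
      calc ‖(σ k).V i‖ = ‖(σ k).u i + ((σ k).V i - (σ k).u i)‖ := by rw [add_sub_cancel]
        _ ≤ ‖(σ k).u i‖ + ‖(σ k).V i - (σ k).u i‖ := norm_add_le _ _
        _ ≤ 1 + δ := by linarith
    · refine Submodule.le_topologicalClosure _ ?_
      revert i
      show ∀ i, i < (σ k).L → (σ k).V i - (σ 0).V 0 ∈ Submodule.span ℝ (Set.range z)
      induction k with
      | zero =>
        intro i hi
        have : i = 0 := by omega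
        rw [this, sub_self]
        exact Submodule.zero_mem _
      | succ k ih =>
        intro i hi
        have hp : 0 < 2 ^ kk k := by positivity
        have h6 : i / 2 ^ kk k < (σ k).L := by
          apply Nat.div_lt_of_lt_mul
          rw [mul_comm, ← (hσ k).2.1]
          exact hi
        have h7 := (((hσ k).2.2.2.2.2 _ h6).2 (i % 2 ^ kk k) (Nat.mod_lt _ hp)).1
        rw [Nat.div_add_mod'] at h7
        have h8 := Submodule.add_mem _ (hsp (k + 1) h7) (ih _ h6)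
        rwa [sub_add_sub_cancel] at h8
  · have h1 := ((hσ k).2.2.2.2.2 i hi).1
    push_cast
    exact h1
  · exact (brch brn δ r hδ σ kk hσ h0V h0b t ht.1.le ht.2).1

end

theorem trn (gen : GenStmt) (lni : LniStmt) (fna : FnaStmt) (brn : BrnStmt) (lnc : LncStmt) :
    TrnStmt := by
  intro X _ _ _ r hr hr1 hR NN δ hN
  obtain ⟨u₀, hu₀⟩ := hN.2.1
  choose F kf hF using step gen r hr hr1 hR NN δ hN
  let s₀ : St NN := ⟨fun _ => 0, 0, 1, fun _ => u₀, fun _ => u₀, fun _ => 0, fun _ _ => hu₀,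
    le_rfl⟩
  let σ : ℕ → St NN := fun n => Nat.rec s₀ (fun n s => F n s) n
  exact run lni fna brn lnc r hr hr1 NN δ hN σ (fun n => kf n (σ n)) (fun n => hF n (σ n)) rfl
    rfl rfl fun _ => rfl

end Pool.Agent.NA.H15
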